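import Pool.Agent.Y374.NFGridMain

set_option autoImplicit false

namespace Pool.Agent.Results.MP_fad2aa_co.NotLatticeLike

/-- A line of the plane `ℝ × ℝ`. -/
def IsLine (ℓ : Set (ℝ × ℝ)) : Prop :=
  ∃ a b c : ℝ, (a ≠ 0 ∨ b ≠ 0) ∧ ℓ = {p | a * p.1 + b * p.2 = c}

/-- The number `I(P, L)` of incidences. -/
noncomputable def incidences (P : Set (ℝ × ℝ)) (L : Set (Set (ℝ × ℝ))) : ℕ :=
  {x : (ℝ × ℝ) × Set (ℝ × ℝ) | x.1 ∈ P ∧ x.2 ∈ L ∧ x.1 ∈ x.2}.ncard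

/-- Some projective transformation (given by an invertible `3 × 3` matrix) is defined at all points
of `X` and maps them into the lattice section `{1, …, a} × {1, …, b}`. -/
def MapsIntoSection (X : Set (ℝ × ℝ)) (a b : ℕ) : Prop :=
  ∃ M : Matrix (Fin 3) (Fin 3) ℝ, M.det ≠ 0 ∧ ∀ p ∈ X,
    M.mulVec ![p.1, p.2, 1] 2 ≠ 0 ∧ ∃ i j : ℕ, (1 ≤ i ∧ i ≤ a) ∧ (1 ≤ j ∧ j ≤ b) ∧
      M.mulVec ![p.1, p.2, 1] 0 / M.mulVec ![p.1, p.2, 1] 2 = i ∧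
      M.mulVec ![p.1, p.2, 1] 1 / M.mulVec ![p.1, p.2, 1] 2 = j

/-- There is a subset of `X` with at least `c s` points which some projective transformation maps
into a lattice section of size at most `C s`. -/
def LatticeLike (X : Set (ℝ × ℝ)) (c C : ℝ) (s : ℕ) : Prop :=
  ∃ Y ⊆ X, c * s ≤ Y.ncard ∧ ∃ a b : ℕ, ((a * b : ℕ) : ℝ) ≤ C * s ∧ MapsIntoSection Y a b

/-- The dual points `(s, t)` of the non-vertical members `y = s x - t` of `L`. -/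
def dualPoints (L : Set (Set (ℝ × ℝ))) : Set (ℝ × ℝ) :=
  {q | {p : ℝ × ℝ | p.2 = q.1 * p.1 - q.2} ∈ L}

/-- The negated form of the question (the configurations do not even depend on `C`). -/
theorem result : ∃ C₁ c₂ c₃ : ℝ, 0 < C₁ ∧ 0 < c₂ ∧ 0 < c₃ ∧
    ∀ c : ℝ, 0 < c → ∀ N : ℕ, ∃ m n : ℕ, N ≤ m ∧ N ≤ n ∧
      c₂ * √(n : ℝ) ≤ m ∧ (m : ℝ) ≤ C₁ * (n : ℝ) ^ 2 ∧
      ∃ (P : Set (ℝ × ℝ)) (L : Set (Set (ℝ × ℝ))), P.Finite ∧ P.ncard = m ∧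
        L.Finite ∧ L.ncard = n ∧ (∀ ℓ ∈ L, IsLine ℓ) ∧
        c₃ * (m : ℝ) ^ (2 / 3 : ℝ) * (n : ℝ) ^ (2 / 3 : ℝ) ≤ (incidences P L : ℝ) ∧
        ∀ C : ℝ, ¬ LatticeLike P c C m ∧ ¬ LatticeLike (dualPoints L) c C n := by
  classical
  refine ⟨1, 1, 1 / 6, one_pos, one_pos, by norm_num, ?_⟩
  intro c hc N
  obtain ⟨n, hNn, hn1, P, Q, hP, hQ, hinc, hXP, hXQ⟩ := Pool.Agent.Y374.NFGrid.main c hc N
  -- the line with dual point `q`
  let lin : ℝ × ℝ → Set (ℝ × ℝ) := fun q => {p | p.2 = q.1 * p.1 - q.2}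
  have lin_inj : Function.Injective lin := by
    rintro ⟨s, t⟩ ⟨s', t'⟩ h
    have h0 : ((0 : ℝ), -t) ∈ lin (s, t) := by
      change -t = s * 0 - t
      ring
    have h1 : ((1 : ℝ), s - t) ∈ lin (s, t) := by
      change s - t = s * 1 - t
      ring
    rw [h] at h0 h1
    change -t = s' * 0 - t' at h0
    change s - t = s' * 1 - t' at h1
    have ht : t = t' := by linarith
    have hs : s = s' := by linarith
    rw [hs, ht]
  have hn1' : (1 : ℝ) ≤ n := by exact_mod_cast hn1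
  have hdual : dualPoints (lin '' (Q : Set (ℝ × ℝ))) = (Q : Set (ℝ × ℝ)) := by
    ext q
    constructor
    · intro hq
      obtain ⟨r, hr, hrq⟩ := hq
      have : lin r = lin q := hrq
      rw [← lin_inj this]
      exact hr
    · intro hq
      exact ⟨q, hq, rfl⟩
  have key : ∀ (S : Finset (ℝ × ℝ)), (∀ X ⊆ S, c * n ≤ X.card →
      ∀ M : Matrix (Fin 3) (Fin 3) ℝ, M.det ≠ 0 →
        ¬ ∀ p ∈ X, M.mulVec ![p.1, p.2, 1] 2 ≠ 0 ∧ ∃ i j : ℤ,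
          M.mulVec ![p.1, p.2, 1] 0 / M.mulVec ![p.1, p.2, 1] 2 = i ∧
          M.mulVec ![p.1, p.2, 1] 1 / M.mulVec ![p.1, p.2, 1] 2 = j) →
      ∀ C : ℝ, ¬ LatticeLike (S : Set (ℝ × ℝ)) c C n := by
    rintro S hS C ⟨Y, hYS, hYc, a, b, -, M, hM, hY⟩
    have hYfin : Y.Finite := S.finite_toSet.subset hYS
    refine hS hYfin.toFinset ?_ ?_ M hM ?_
    · intro x hx
      exact hYS (hYfin.mem_toFinset.mp hx)
    · rw [← Set.ncard_eq_toFinset_card Y hYfin]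
      exact hYc
    · intro p hp
      obtain ⟨h0, i, j, -, -, hi, hj⟩ := hY p (hYfin.mem_toFinset.mp hp)
      exact ⟨h0, i, j, by simpa using hi, by simpa using hj⟩
  refine ⟨n, n, hNn, hNn, ?_, ?_, (P : Set (ℝ × ℝ)), lin '' (Q : Set (ℝ × ℝ)),
    P.finite_toSet, ?_, Q.finite_toSet.image _, ?_, ?_, ?_, ?_⟩
  · rw [one_mul]
    apply Real.sqrt_le_iff.mpr
    refine ⟨by positivity, ?_⟩
    nlinarith
  · nlinarith
  · rw [Set.ncard_coe_finset, hP]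
  · rw [Set.ncard_image_of_injective _ lin_inj, Set.ncard_coe_finset, hQ]
  · rintro ℓ ⟨q, -, rfl⟩
    refine ⟨q.1, -1, q.2, Or.inr (by norm_num), ?_⟩
    ext p
    change p.2 = q.1 * p.1 - q.2 ↔ q.1 * p.1 + -1 * p.2 = q.2
    constructor <;> intro h <;> linarith
  · refine hinc.trans ?_
    have hfin : {x : (ℝ × ℝ) × Set (ℝ × ℝ) | x.1 ∈ (P : Set (ℝ × ℝ)) ∧
        x.2 ∈ lin '' (Q : Set (ℝ × ℝ)) ∧ x.1 ∈ x.2}.Finite := by
      apply Set.Finite.subset (P.finite_toSet.prod (Q.finite_toSet.image lin))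
      rintro ⟨x, y⟩ ⟨h1, h2, -⟩
      exact ⟨h1, h2⟩
    have hle : (Pool.Agent.Y374.NFGrid.inc P Q).ncard ≤
        incidences (P : Set (ℝ × ℝ)) (lin '' (Q : Set (ℝ × ℝ))) := by
      apply Set.ncard_le_ncard_of_injOn (fun x => (x.1, lin x.2)) ?_ ?_ hfin
      · rintro ⟨x, q⟩ ⟨h1, h2, h3⟩
        exact ⟨h1, ⟨q, h2, rfl⟩, h3⟩
      · rintro ⟨x, q⟩ - ⟨y, r⟩ - h
        simp only [Prod.mk.injEq] at h
        rw [h.1, lin_inj h.2]
    exact_mod_cast hle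
  · intro C
    refine ⟨key P hXP C, ?_⟩
    rw [hdual]
    exact key Q hXQ C

end Pool.Agent.Results.MP_fad2aa_co.NotLatticeLike
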